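import Pool.Agent.H64.OC2.Reduce

/-!
# On-line colouring of k-colourable graphs: three colours are as hard as `p` colours

`φ(p, n) ≤ φ(3, n^(2 log* p + 7) (log* p + 4)^(log* p + 3))` for all `p` and all `n ≥ 1`.
-/

set_option autoImplicit false

namespace Pool.Agent.Results.MP_af9794_lc.ThreeColours

open Pool.Agent.H64.OC Pool.Agent.H64.OC2

theorem result (p n : ℕ) (hn : 1 ≤ n) :
    phi p n ≤ phi 3 (n ^ (2 * logStar p + 7) * (logStar p + 4) ^ (logStar p + 3)) :=
  phi_le_phi_three hn

end Pool.Agent.Results.MP_af9794_lc.ThreeColours
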