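import Pool.Agent.H45.OC.Final

/-!
# On-line colouring of k-colourable graphs: the upper bound n^((k-2)/(k-1) + ε) for all k

A deterministic on-line algorithm with Vishwanathan's exponent, which was known only for
randomised algorithms.  For `k = 3` the exponent is `1/2 + ε` (known: `2/3`).
-/

set_option autoImplicit false

namespace Pool.Agent.Results.MP_af9794_lc.UpperAllK

open Pool.Agent.H64.OC

theorem result (k : ℕ) (hk : 3 ≤ k) (ε : ℝ) (hε : 0 < ε) :
    ∃ K : ℝ, ∀ n : ℕ, 1 ≤ n →
      (phi k n : ℝ) ≤ K * (n : ℝ) ^ (((k : ℝ) - 2) / ((k : ℝ) - 1) + ε) :=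
  Pool.Agent.H45.OC.upper_all k (by omega) ε hε

end Pool.Agent.Results.MP_af9794_lc.UpperAllK
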